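import Pool.Agent.TH71.UH.HLowA

set_option autoImplicit false

/-!
# Lower bound for the Gaussian average
-/

namespace Pool.Agent.TH71.UH

open Complex MeasureTheory Filter Topology Set
open Pool.Agent.W169.HF Pool.Agent.W736.HF2

lemma expo {t ℓ L σ g x b K C D G M : ℝ} (hG : 0 < G) (ht : 0 < t) (hℓ : 0 < ℓ)
    (hL : L = 2 * t * ℓ) (hM : M = ℓ * σ + t * ℓ ^ 2) (hK : 0 ≤ K) (h32 : 32 * K * t ≤ 1)
    (hg : 0 < g) (hσ : 1 / 2 + g ≤ σ) (hC1 : 1 + b ^ 2 + 2 * (σ + L) ^ 2 ≤ C)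
    (hC2 : 1 + b ^ 2 + 2 * (σ - L) ^ 2 ≤ C) (hC3 : 2 + b ^ 2 ≤ C) (hD1 : D ≤ g * ℓ) (hD2 : D ≤ ℓ)
    (hD3 : 1 / 2 ≤ x → D ≤ (x - (σ + L)) ^ 2 / (16 * t)) :
    Real.exp (-((x - σ) ^ 2 / (4 * t))) *
      (G * Real.exp (ℓ * max |x| (1 / 2) + K * (1 + (x ^ 2 + b ^ 2)))) ≤
      G * Real.exp (M + K * C - D) * GS t σ L x := by
  have hE : ∀ m : ℝ, -((x - σ) ^ 2 / (4 * t)) + (ℓ * max |x| (1 / 2) + K * (1 + (x ^ 2 + b ^ 2))) ≤
      (M + K * C - D) + -((x - m) ^ 2 / (8 * t)) →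
      Real.exp (-((x - σ) ^ 2 / (4 * t))) *
      (G * Real.exp (ℓ * max |x| (1 / 2) + K * (1 + (x ^ 2 + b ^ 2)))) ≤
      G * Real.exp (M + K * C - D) * Real.exp (-((x - m) ^ 2 / (8 * t))) := by
    intro m h
    rw [mul_left_comm, mul_assoc, ← Real.exp_add, ← Real.exp_add]
    gcongr
  have hq : ∀ y : ℝ, 2 * K * y ^ 2 ≤ y ^ 2 / (16 * t) := by
    intro y
    rw [le_div_iff₀ (by positivity)]
    nlinarith [mul_le_mul_of_nonneg_left h32 (sq_nonneg y)]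
  have hsplit : ∀ y : ℝ, y ^ 2 / (4 * t) = y ^ 2 / (8 * t) + y ^ 2 / (16 * t) + y ^ 2 / (16 * t) := by
    intro y
    field_simp
    ring
  have g1 := Real.exp_pos (-((x - (σ + L)) ^ 2 / (8 * t)))
  have g2 := Real.exp_pos (-((x - σ) ^ 2 / (8 * t)))
  have g3 := Real.exp_pos (-((x - (σ - L)) ^ 2 / (8 * t)))
  have hGp : 0 ≤ G * Real.exp (M + K * C - D) := by positivity
  rcases le_or_gt (1 / 2) x with h1 | h1
  · refine (hE (σ + L) ?_).trans (mul_le_mul_of_nonneg_left (by unfold GS; linarith) hGp)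
    rw [max_eq_left (by rw [abs_of_pos (by linarith)]; exact h1), abs_of_pos (by linarith)]
    have e1 := sq_id (ℓ := ℓ) (σ := σ) (r := x) ht
    have e2 : (x - σ - 2 * t * ℓ) ^ 2 / (4 * t) = (x - (σ + L)) ^ 2 / (4 * t) := by
      rw [hL]; ring
    rw [e2, ← hM] at e1
    have e1' := hsplit (x - (σ + L))
    have e3 := hq (x - (σ + L))
    have e4 := hD3 h1
    have e5 : x ^ 2 ≤ 2 * (x - (σ + L)) ^ 2 + 2 * (σ + L) ^ 2 := by
      nlinarith [sq_nonneg (x - (σ + L) - (σ + L))]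
    have e6 : K * (1 + (x ^ 2 + b ^ 2)) ≤ 2 * K * (x - (σ + L)) ^ 2 + K * C := by
      calc K * (1 + (x ^ 2 + b ^ 2))
          ≤ K * (1 + (2 * (x - (σ + L)) ^ 2 + 2 * (σ + L) ^ 2 + b ^ 2)) := by gcongr
        _ = 2 * K * (x - (σ + L)) ^ 2 + K * (1 + b ^ 2 + 2 * (σ + L) ^ 2) := by ring
        _ ≤ _ := by gcongr
    linarith
  · rcases le_or_gt (-(1 / 2)) x with h2 | h2
    · refine (hE σ ?_).trans (mul_le_mul_of_nonneg_left (by unfold GS; linarith) hGp)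
      rw [max_eq_right (abs_le.2 ⟨h2, h1.le⟩)]
      have e1 : (x - σ) ^ 2 / (4 * t) = (x - σ) ^ 2 / (8 * t) + (x - σ) ^ 2 / (8 * t) := by
        field_simp; ring
      have e2 : 0 ≤ (x - σ) ^ 2 / (8 * t) := by positivity
      have e3 : ℓ * (1 / 2 + g) ≤ ℓ * σ := mul_le_mul_of_nonneg_left hσ hℓ.le
      have e4 : 0 ≤ t * ℓ ^ 2 := by positivity
      have e5 : x ^ 2 ≤ 1 := by nlinarith
      have e6 : K * (1 + (x ^ 2 + b ^ 2)) ≤ K * C := by
        apply mul_le_mul_of_nonneg_left _ hK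
        linarith
      rw [hM]
      linarith
    · refine (hE (σ - L) ?_).trans (mul_le_mul_of_nonneg_left (by unfold GS; linarith) hGp)
      rw [max_eq_left (by rw [abs_of_neg (by linarith)]; linarith), abs_of_neg (by linarith)]
      have e1 : -((x - σ) ^ 2 / (4 * t)) + ℓ * -x = M - 2 * ℓ * σ - (x - (σ - L)) ^ 2 / (4 * t) := by
        rw [hM, hL]; field_simp; ring
      have e1' := hsplit (x - (σ - L))
      have e3 := hq (x - (σ - L))
      have e5 : x ^ 2 ≤ 2 * (x - (σ - L)) ^ 2 + 2 * (σ - L) ^ 2 := by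
        nlinarith [sq_nonneg (x - (σ - L) - (σ - L))]
      have e6 : K * (1 + (x ^ 2 + b ^ 2)) ≤ 2 * K * (x - (σ - L)) ^ 2 + K * C := by
        calc K * (1 + (x ^ 2 + b ^ 2))
            ≤ K * (1 + (2 * (x - (σ - L)) ^ 2 + 2 * (σ - L) ^ 2 + b ^ 2)) := by gcongr
          _ = 2 * K * (x - (σ - L)) ^ 2 + K * (1 + b ^ 2 + 2 * (σ - L) ^ 2) := by ring
          _ ≤ _ := by gcongr
      have e7 : ℓ ≤ 2 * ℓ * σ := by nlinarith
      have e8 : 0 ≤ (x - (σ - L)) ^ 2 / (16 * t) := by positivity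
      linarith

/-- All estimates for one function. -/
lemma core {X g R1 δ κ2 C0 K ℓ G t : ℝ} {f : ℂ → ℂ} (hS : S_SADL) (hX : 1 ≤ X) (hg : 0 < g)
    (hg1 : g ≤ 1 / 4) (hR1 : 1 ≤ R1) (hδ : 0 < δ) (hδμ : 8 * δ * (3200 * X) ≤ g ^ 2) (hκ2 : 0 < κ2)
    (hκ21 : κ2 * (200000 * X) ≤ g) (hκ22 : κ2 ≤ δ / 2) (hC0 : C0 = 1 + 4 * (R1 + X + 1) ^ 2)
    (hK : 1 ≤ K) (hKC : K * C0 ≤ κ2 * ℓ) (hℓ1 : X * (30000 ^ 2 + 100 / g ^ 2) ≤ ℓ)
    (hℓ2 : 2 ≤ δ * ℓ) (hUD : UD K (1 / 2) ℓ G f)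
    (hder : ∀ u : ℂ, 1 / 2 ≤ u.re → ‖logDeriv f u - ℓ‖ ≤ K * (1 + ‖u‖ ^ 2))
    (ht : 0 < t) (h2 : 2 * t * ℓ ≤ X) (z : ℂ) (hz1 : 1 / 2 + g ≤ z.re) (hz2 : z.re ≤ R1)
    (hz3 : |z.im| ≤ R1) :
    G * Real.exp (t * ℓ ^ 2) * Real.exp (ℓ * z.re - 8 * δ * ℓ) ≤ ‖heat t f z‖ := by
  have hG := hUD.hG
  have hXp : 0 < X := by linarith only [hX]
  have hℓX : 30000 ^ 2 * X ≤ ℓ := by
    have : 0 ≤ X * (100 / g ^ 2) := by positivity
    linarith only [hℓ1, this]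
  have hℓ : 0 < ℓ := by linarith only [hℓX, hX]
  obtain ⟨σ, hσ⟩ : ∃ σ : ℝ, σ = z.re := ⟨_, rfl⟩
  obtain ⟨b, hb⟩ : ∃ b : ℝ, b = z.im := ⟨_, rfl⟩
  obtain ⟨L, hL⟩ : ∃ L : ℝ, L = 2 * t * ℓ := ⟨_, rfl⟩
  obtain ⟨θ, hθ⟩ : ∃ θ : ℝ, θ = κ2 * L := ⟨_, rfl⟩
  obtain ⟨M, hM⟩ : ∃ M : ℝ, M = ℓ * σ + t * ℓ ^ 2 := ⟨_, rfl⟩
  rw [← hσ] at hz1 hz2
  rw [← hb] at hz3
  have hL0 : 0 < L := by rw [hL]; positivity
  have hLX : L ≤ X := by rw [hL]; exact h2
  have hθ0 : 0 < θ := by rw [hθ]; positivity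
  have hκX : κ2 * X ≤ g / 200000 := by linarith only [hκ21]
  have hθ1 : θ ≤ g / 200000 := by
    rw [hθ]; exact (mul_le_mul_of_nonneg_left hLX hκ2.le).trans hκX
  have hKpos : 0 < K := by linarith only [hK]
  have hC0p : 1 ≤ C0 := by rw [hC0]; nlinarith only [sq_nonneg (R1 + X + 1)]
  have hKℓ : K ≤ κ2 * ℓ := by nlinarith only [hC0p, hKC, hKpos]
  have h32 : 32 * K * t ≤ 1 := by
    have h3 : 32 * K * t ≤ 32 * (κ2 * ℓ) * t := by gcongr
    have h4 : 32 * (κ2 * ℓ) * t = 16 * (κ2 * (2 * t * ℓ)) := by ring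
    have h5 : κ2 * (2 * t * ℓ) ≤ κ2 * X := by gcongr
    linarith only [h3, h4, h5, hκX, hg1]
  have hzn : ‖z‖ ≤ 2 * R1 := by
    refine (Complex.norm_le_abs_re_add_abs_im z).trans ?_
    rw [← hσ, ← hb, abs_of_pos (by linarith only [hz1, hg])]
    linarith only [hz2, hz3]
  have hδℓ : κ2 * ℓ ≤ δ * ℓ / 2 := by
    have := mul_le_mul_of_nonneg_right hκ22 hℓ.le
    linarith only [this]
  -- the parameter s
  obtain ⟨s, hs⟩ : ∃ s : ℝ, s = Real.sqrt (1 / (2 * t)) := ⟨_, rfl⟩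
  have hs2 : s ^ 2 = 1 / (2 * t) := by rw [hs]; exact Real.sq_sqrt (by positivity)
  have hs0 : 0 ≤ s := by rw [hs]; exact Real.sqrt_nonneg _
  have hsL : ℓ / X ≤ s ^ 2 := by
    rw [hs2, div_le_div_iff₀ hXp (by positivity)]; linarith only [h2]
  have hs3 : 30000 ^ 2 + 100 / g ^ 2 ≤ s ^ 2 := by
    refine le_trans ?_ hsL
    rw [le_div_iff₀ hXp]; linarith only [hℓ1]
  have hs4 : 30000 ≤ s := by
    have h0 : (0 : ℝ) ≤ 100 / g ^ 2 := by positivity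
    exact (sq_le_sq₀ (by norm_num) hs0).1 (by linarith only [h0, hs3])
  have hs5 : 5 / (g / 2) ≤ s := by
    refine (sq_le_sq₀ (by positivity) hs0).1 ?_
    have e : (5 / (g / 2)) ^ 2 = 100 / g ^ 2 := by
      field_simp
      norm_num
    rw [e]
    linarith only [hs3]
  have hsp : 0 < s := by linarith only [hs4]
  -- the saddle point
  obtain ⟨p, hpd⟩ : ∃ p : ℂ, p = z + (L : ℂ) := ⟨_, rfl⟩
  have hpr : p.re = σ + L := by rw [hpd, Complex.add_re, Complex.ofReal_re, hσ]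
  have hpi : p.im = b := by rw [hpd, Complex.add_im, Complex.ofReal_im, hb, add_zero]
  have hreg : ∀ w : ℂ, ‖w - p‖ ≤ g / 2 → 1 / 2 ≤ w.re ∧ K * (1 + ‖w‖ ^ 2) ≤ κ2 * ℓ := by
    intro w hw
    have a1 := (Complex.abs_re_le_norm (w - p)).trans hw
    rw [Complex.sub_re, hpr, abs_le] at a1
    refine ⟨by linarith only [a1.1, hz1, hL0, hg], ?_⟩
    refine le_trans ?_ hKC
    apply mul_le_mul_of_nonneg_left _ hKpos.le
    rw [hC0]
    have h3 : ‖w‖ ≤ 2 * (R1 + X + 1) := by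
      have e : w = (w - p) + (z + (L : ℂ)) := by rw [← hpd]; ring
      calc ‖w‖ ≤ ‖w - p‖ + ‖z + (L : ℂ)‖ := by
            conv_lhs => rw [e]
            exact norm_add_le _ _
        _ ≤ ‖w - p‖ + (‖z‖ + ‖(L : ℂ)‖) := by
            gcongr
            exact norm_add_le _ _
        _ ≤ g / 2 + (2 * R1 + X) := by
            gcongr
            rw [Complex.norm_real, Real.norm_eq_abs, abs_of_pos hL0]
            exact hLX
        _ ≤ _ := by linarith only [hg1, hXp]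
    have h4 : ‖w‖ ^ 2 ≤ (2 * (R1 + X + 1)) ^ 2 := by gcongr
    linarith only [h4]
  have hLc : Lc (g / 2) s θ (ℓ : ℂ) p f := by
    intro w hw
    rw [Metric.mem_ball, dist_eq_norm] at hw
    obtain ⟨b1, b2⟩ := hreg w hw.le
    refine ⟨hUD.slow.1 w, ?_, ?_⟩
    · have h3 := hUD.lo w b1
      have h4 : 0 < G * Real.exp (ℓ * w.re - K * (1 + ‖w‖ ^ 2)) := by positivity
      exact norm_pos_iff.1 (lt_of_lt_of_le h4 h3)
    · refine (hder w b1).trans (b2.trans (le_of_eq ?_))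
      rw [hθ, hs2, hL]
      field_simp
  obtain ⟨w0, hw0, -, hw2⟩ := hS f p (ℓ : ℂ) (g / 2) s θ (by positivity) (by linarith only [hg1]) hs4 hs5
    hθ0 (by linarith only [hθ1]) hLc
  have hzz : p - (ℓ : ℂ) / (s : ℂ) ^ 2 = z := by
    have e1 : ((s : ℂ)) ^ 2 = ((1 / (2 * t) : ℝ) : ℂ) := by rw [← hs2]; push_cast; ring
    rw [e1, hpd, hL]
    have : (t : ℂ) ≠ 0 := by exact_mod_cast ht.ne'
    push_cast
    field_simp
    ring
  obtain ⟨a, ha⟩ : ∃ a : ℝ, a = g / 10 := ⟨_, rfl⟩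
  have ha0 : 0 < a := by rw [ha]; positivity
  have h45 : g / 2 / 5 = a := by rw [ha]; ring
  rw [hzz, h45] at hw2
  have hv1 : |w0.re - (σ + L)| ≤ θ := by
    have := (Complex.abs_re_le_norm (w0 - p)).trans hw0
    rwa [Complex.sub_re, hpr] at this
  have hv2 : |w0.im - b| ≤ θ := by
    have := (Complex.abs_im_le_norm (w0 - p)).trans hw0
    rwa [Complex.sub_im, hpi] at this
  have hv1' := abs_le.1 hv1
  have hv2' := abs_le.1 hv2
  obtain ⟨r1, r2⟩ := hreg w0 (hw0.trans (by linarith only [hθ1, hg]))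
  have hlow := hUD.lo w0 r1
  -- θ² / 4t
  have hθt : θ ^ 2 / (4 * t) ≤ κ2 * ℓ / 2 := by
    have e : θ ^ 2 / (4 * t) = κ2 * ℓ / 2 * (κ2 * (2 * t * ℓ)) := by
      rw [hθ, hL]; field_simp; ring
    rw [e]
    have h3 : κ2 * (2 * t * ℓ) ≤ κ2 * X := by gcongr
    have h4 : κ2 * (2 * t * ℓ) ≤ 1 := by linarith only [h3, hκX, hg1]
    have h5 : 0 ≤ κ2 * ℓ / 2 := by positivity
    nlinarith only [h4, h5]
  -- main term
  have hmain : G * Real.exp (M - δ * ℓ) ≤ ‖Q f s z w0‖ := by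
    rw [Q_norm ht hs2, ← hσ, ← hb]
    have q0 : -((w0.re - σ) ^ 2 / (4 * t)) + ℓ * w0.re = M - (w0.re - σ - 2 * t * ℓ) ^ 2 / (4 * t) := by
      rw [sq_id ht, hM]
    have q1 : (w0.re - σ - 2 * t * ℓ) ^ 2 / (4 * t) ≤ κ2 * ℓ / 2 := by
      refine le_trans ?_ hθt
      have q2 : (w0.re - σ - 2 * t * ℓ) ^ 2 ≤ θ ^ 2 := by
        rw [← hL]
        apply sq_le_sq'
        · linarith only [hv1'.1]
        · linarith only [hv1'.2]
      gcongr
    have q5 : 0 ≤ (w0.im - b) ^ 2 / (4 * t) := by positivity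
    calc G * Real.exp (M - δ * ℓ)
        ≤ G * Real.exp (-(((w0.re - σ) ^ 2 - (w0.im - b) ^ 2) / (4 * t)) +
            (ℓ * w0.re - K * (1 + ‖w0‖ ^ 2))) := by
          have : M - δ * ℓ ≤ -(((w0.re - σ) ^ 2 - (w0.im - b) ^ 2) / (4 * t)) +
              (ℓ * w0.re - K * (1 + ‖w0‖ ^ 2)) := by
            rw [sub_div]
            linarith only [q0, q1, q5, r2, hδℓ, hδ, hℓ, mul_pos hδ hℓ]
          gcongr
      _ = Real.exp (-(((w0.re - σ) ^ 2 - (w0.im - b) ^ 2) / (4 * t))) *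
            (G * Real.exp (ℓ * w0.re - K * (1 + ‖w0‖ ^ 2))) := by
          rw [Real.exp_add]; ring
      _ ≤ _ := by gcongr
  -- distance from the saddle point
  have hμ : 8 * δ * ℓ ≤ (a / 2) ^ 2 / (16 * t) := by
    rw [le_div_iff₀ (by positivity), ha]
    have h3 : 8 * δ * ℓ * (16 * t) = 8 * δ * (8 * (2 * t * ℓ)) := by ring
    have h4 : 8 * δ * (8 * (2 * t * ℓ)) ≤ 8 * δ * (8 * X) := by gcongr
    have h5 : 8 * δ * (8 * X) ≤ g ^ 2 / 400 := by linarith only [hδμ]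
    linarith only [h3, h4, h5]
  have hfar : ∀ x : ℝ, a ≤ |x - w0.re| → (a / 2) ^ 2 ≤ (x - (σ + L)) ^ 2 := by
    intro x hx
    rw [← sq_abs (x - (σ + L))]
    have h4 : |x - w0.re| ≤ |x - (σ + L)| + |w0.re - (σ + L)| := by
      have := abs_sub (x - (σ + L)) (w0.re - (σ + L))
      rwa [show x - (σ + L) - (w0.re - (σ + L)) = x - w0.re by ring] at this
    have h5 : a / 2 ≤ |x - (σ + L)| := by linarith only [h4, hv1, hx, hθ1, ha, hg]
    gcongr
  -- constants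
  have hCb : b ^ 2 ≤ R1 ^ 2 := by rw [← sq_abs]; gcongr
  have hCs : (σ + L) ^ 2 ≤ (R1 + X) ^ 2 := by
    have : 0 ≤ σ + L := by linarith only [hz1, hL0, hg]
    gcongr
  have hCd : (σ - L) ^ 2 ≤ (R1 + X) ^ 2 := by
    apply sq_le_sq'
    · linarith only [hz1, hLX, hg, hR1]
    · linarith only [hz2, hL0, hXp]
  have hC1 : 1 + b ^ 2 + 2 * (σ + L) ^ 2 ≤ C0 := by
    rw [hC0]; nlinarith only [hCb, hCs, hR1, hX]
  have hC2 : 1 + b ^ 2 + 2 * (σ - L) ^ 2 ≤ C0 := by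
    rw [hC0]; nlinarith only [hCb, hCd, hR1, hX]
  have hC3 : 2 + b ^ 2 ≤ C0 := by
    rw [hC0]; nlinarith only [hCb, hR1, hX]
  have hδ1 : 8 * δ ≤ g := by
    have h3 : 8 * δ * 3200 * 1 ≤ 8 * δ * 3200 * X := by gcongr
    nlinarith only [h3, hδμ, hg, hg1]
  have hD1 : 8 * δ * ℓ ≤ g * ℓ := by gcongr
  have hD2 : 8 * δ * ℓ ≤ ℓ := by
    have : g * ℓ ≤ 1 * ℓ := by
      apply mul_le_mul_of_nonneg_right _ hℓ.le
      linarith only [hg1]
    linarith only [hD1, this]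
  -- the line
  have hnorm : ∀ x : ℝ, ‖Q f s z ((x : ℂ) + b * I)‖ =
      Real.exp (-((x - σ) ^ 2 / (4 * t))) * ‖f ((x : ℂ) + b * I)‖ := by
    intro x
    rw [Q_norm ht hs2, ← hσ, ← hb]
    simp
  have hup : ∀ x : ℝ, ‖f ((x : ℂ) + b * I)‖ ≤
      G * Real.exp (ℓ * max |x| (1 / 2) + K * (1 + (x ^ 2 + b ^ 2))) := by
    intro x
    have h3 := hUD.up ((x : ℂ) + b * I)
    have e1 : ((x : ℂ) + b * I).re = x := by simp
    have e2 : ‖(x : ℂ) + b * I‖ ^ 2 = x ^ 2 + b ^ 2 := by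
      rw [Complex.sq_norm, Complex.normSq_add_mul_I]
    rw [e1, e2] at h3
    exact h3
  have hall : ∀ x : ℝ, ‖Q f s z ((x : ℂ) + b * I)‖ ≤
      G * Real.exp (M + K * C0 - 0) * GS t σ L x := by
    intro x
    rw [hnorm x]
    refine (mul_le_mul_of_nonneg_left (hup x) (Real.exp_pos _).le).trans ?_
    exact expo hG ht hℓ hL hM hKpos.le h32 hg hz1 hC1 hC2 hC3 (by positivity) hℓ.le
      (fun _ => by positivity)
  have htail : ∀ x : ℝ, a ≤ |x - w0.re| → ‖Q f s z ((x : ℂ) + b * I)‖ ≤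
      G * Real.exp (M - 7 * δ * ℓ) * GS t σ L x := by
    intro x hx
    rw [hnorm x]
    refine (mul_le_mul_of_nonneg_left (hup x) (Real.exp_pos _).le).trans ?_
    refine (expo (D := 8 * δ * ℓ) hG ht hℓ hL hM hKpos.le h32 hg hz1 hC1 hC2 hC3 hD1 hD2
      (fun _ => hμ.trans (by have := hfar x hx; gcongr))).trans ?_
    have h4 : M + K * C0 - 8 * δ * ℓ ≤ M - 7 * δ * ℓ := by
      linarith only [hKC, hδℓ, mul_pos hδ hℓ]
    have h5 := GS_nonneg t σ L x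
    gcongr
  -- vertical sides
  have hvert : ∀ x η : ℝ, (x = w0.re - a ∨ x = w0.re + a) → η ∈ uIcc b w0.im →
      ‖Q f s z ((x : ℂ) + η * I)‖ ≤ G * Real.exp (M - 7 * δ * ℓ) := by
    intro x η hx hη
    have e1 : ((x : ℂ) + η * I).re = x := by simp
    have e2 : ((x : ℂ) + η * I).im = η := by simp
    have hη2 : |η - b| ≤ θ := by
      rw [mem_uIcc] at hη
      rw [abs_le]
      rcases hη with hη | hη
      · constructor <;> linarith only [hη.1, hη.2, hv2'.1, hv2'.2, hθ0]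
      · constructor <;> linarith only [hη.1, hη.2, hv2'.1, hv2'.2, hθ0]
    have hxa : a ≤ |x - w0.re| := by
      rcases hx with rfl | rfl
      · rw [sub_sub_cancel_left, abs_neg, abs_of_pos ha0]
      · rw [add_sub_cancel_left, abs_of_pos ha0]
    have hxp : ‖((x : ℂ) + η * I) - p‖ ≤ g / 2 := by
      refine (Complex.norm_le_abs_re_add_abs_im _).trans ?_
      rw [Complex.sub_re, Complex.sub_im, e1, e2, hpr, hpi]
      have h3 : |x - (σ + L)| ≤ a + θ := by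
        rw [abs_le]
        rcases hx with rfl | rfl
        · constructor <;> linarith only [hv1'.1, hv1'.2, ha0]
        · constructor <;> linarith only [hv1'.1, hv1'.2, ha0]
      linarith only [h3, hη2, hθ1, ha, hg]
    obtain ⟨t1, t2⟩ := hreg _ hxp
    rw [Q_norm ht hs2, ← hσ, ← hb, e1, e2]
    have h3 := hUD.up ((x : ℂ) + η * I)
    rw [e1] at h3 t1
    rw [abs_of_pos (by linarith only [t1]), max_eq_left t1] at h3
    have h4 : (η - b) ^ 2 / (4 * t) ≤ κ2 * ℓ / 2 := by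
      refine le_trans ?_ hθt
      have : (η - b) ^ 2 ≤ θ ^ 2 := by rw [← sq_abs]; gcongr
      gcongr
    have h5 := sq_id (ℓ := ℓ) (σ := σ) (r := x) ht
    have h6 : 8 * δ * ℓ ≤ (x - σ - 2 * t * ℓ) ^ 2 / (4 * t) := by
      have h7 := hfar x hxa
      rw [hL] at h7
      calc 8 * δ * ℓ ≤ (a / 2) ^ 2 / (16 * t) := hμ
        _ ≤ (a / 2) ^ 2 / (4 * t) := by gcongr; norm_num
        _ ≤ _ := by
          have e : x - σ - 2 * t * ℓ = x - (σ + 2 * t * ℓ) := by ring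
          rw [e]
          gcongr
    calc Real.exp (-(((x - σ) ^ 2 - (η - b) ^ 2) / (4 * t))) * ‖f ((x : ℂ) + η * I)‖
        ≤ Real.exp (-(((x - σ) ^ 2 - (η - b) ^ 2) / (4 * t))) *
          (G * Real.exp (ℓ * x + K * (1 + ‖(x : ℂ) + η * I‖ ^ 2))) := by gcongr
      _ = G * Real.exp (-(((x - σ) ^ 2 - (η - b) ^ 2) / (4 * t)) +
          (ℓ * x + K * (1 + ‖(x : ℂ) + η * I‖ ^ 2))) := by
          rw [mul_left_comm, ← Real.exp_add]
      _ ≤ _ := by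
          have : -(((x - σ) ^ 2 - (η - b) ^ 2) / (4 * t)) +
              (ℓ * x + K * (1 + ‖(x : ℂ) + η * I‖ ^ 2)) ≤ M - 7 * δ * ℓ := by
            rw [sub_div]
            linarith only [h4, h5, h6, t2, hδℓ, hM, mul_pos hδ hℓ]
          gcongr
  have hQd := Q_diff hUD.slow.1 s z
  have hshift := shiftb hQd a _ b w0 hvert
  obtain ⟨iG, jG⟩ := GS_int ht σ L
  have hQc : Continuous fun x : ℝ => Q f s z ((x : ℂ) + b * I) :=
    hQd.continuous.comp (by fun_prop)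
  have hQi : Integrable fun x : ℝ => Q f s z ((x : ℂ) + b * I) :=
    (iG.const_mul _).mono' hQc.aestronglyMeasurable (Eventually.of_forall hall)
  have hfull := full (v := w0.re) ha0.le hQi (iG.const_mul (G * Real.exp (M - 7 * δ * ℓ)))
    (fun r => mul_nonneg (by positivity) (GS_nonneg _ _ _ _)) htail
  rw [integral_const_mul, jG] at hfull
  -- conclusion
  rw [heat_eq ht hs2, ← hb, norm_mul, Complex.norm_real, Real.norm_eq_abs,
    abs_of_pos (by positivity)]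
  obtain ⟨N, hN⟩ : ∃ N : ℝ, N = ‖∫ x : ℝ, Q f s z ((x : ℂ) + b * I)‖ := ⟨_, rfl⟩
  rw [← hN] at hfull ⊢
  have hst : Real.sqrt (4 * Real.pi * t) = 2 * Real.sqrt Real.pi * Real.sqrt t := by
    rw [show 4 * Real.pi * t = (2 ^ 2 * Real.pi) * t by ring, Real.sqrt_mul (by positivity),
      Real.sqrt_mul (by positivity), Real.sqrt_sq (by norm_num)]
  have hst8 : Real.sqrt (8 * Real.pi * t) ≤ 6 * Real.sqrt t := by
    rw [Real.sqrt_le_left (by positivity), mul_pow, Real.sq_sqrt ht.le]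
    nlinarith only [Real.pi_lt_four, ht]
  have hsinv : Real.sqrt t / 2 ≤ 1 / 2 / s := by
    rw [le_div_iff₀ hsp, hs]
    rw [Real.sqrt_div zero_le_one, Real.sqrt_one, Real.sqrt_mul zero_le_two]
    have h3 : Real.sqrt 2 ≥ 1 := by
      rw [ge_iff_le, Real.le_sqrt' one_pos]; norm_num
    have h4 : 0 < Real.sqrt t := Real.sqrt_pos.2 ht
    have h5 : 0 < Real.sqrt 2 := by positivity
    rw [mul_one_div, div_le_div_iff₀ (by positivity) (by norm_num)]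
    nlinarith only [h3, h4]
  obtain ⟨r, hr⟩ : ∃ r : ℝ, r = Real.sqrt t := ⟨_, rfl⟩
  have hr0 : 0 < r := by rw [hr]; exact Real.sqrt_pos.2 ht
  have hrt : r * r = t := by rw [hr]; exact Real.mul_self_sqrt ht.le
  have ht1 : t ≤ 1 := by
    have h3 : 2 * t * (30000 ^ 2 * X) ≤ 2 * t * ℓ := by gcongr
    nlinarith only [h3, h2, hX, ht]
  have hr1 : r ≤ 1 := by
    rw [hr, Real.sqrt_le_left zero_le_one, one_pow]; exact ht1
  rw [← hr] at hst hst8 hsinv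
  obtain ⟨y, hy⟩ : ∃ y : ℝ, y = δ * ℓ := ⟨_, rfl⟩
  have hy2 : 2 ≤ y := by rw [hy]; exact hℓ2
  have hθr : θ ≤ y * r := by
    have h3 : θ = 2 * (κ2 * ℓ) * (r * r) := by rw [hrt, hθ, hL]; ring
    rw [h3, hy]
    have h4 : 2 * (κ2 * ℓ) ≤ δ * ℓ := by linarith only [hδℓ]
    have h5 : r * r ≤ r := by nlinarith only [hr0, hr1]
    calc 2 * (κ2 * ℓ) * (r * r) ≤ δ * ℓ * (r * r) := by gcongr
      _ ≤ _ := by gcongr
  obtain ⟨E, hE⟩ : ∃ E : ℝ, E = G * Real.exp (M - y) := ⟨_, rfl⟩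
  obtain ⟨B, hB⟩ : ∃ B : ℝ, B = G * Real.exp (M - 7 * δ * ℓ) := ⟨_, rfl⟩
  have hE0 : 0 < E := by rw [hE]; positivity
  have hB0 : 0 < B := by rw [hB]; positivity
  have hB1 : B = E * Real.exp (-(6 * y)) := by
    rw [hB, hE, show M - 7 * δ * ℓ = (M - y) + -(6 * y) by rw [hy]; ring, Real.exp_add]
    ring
  have h1000 : Real.exp (-(5 * y)) ≤ 1 / 1000 := by
    have h3 : Real.exp (-(5 * y)) ≤ Real.exp (-10) := Real.exp_le_exp.2 (by linarith only [hy2])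
    refine h3.trans ?_
    rw [Real.exp_neg, ← one_div]
    apply one_div_le_one_div_of_le (by norm_num)
    have h4 : Real.exp 10 = Real.exp 1 ^ 10 := by rw [← Real.exp_nat_mul]; norm_num
    rw [h4]
    have h5 : (2 : ℝ) ≤ Real.exp 1 := by linarith only [Real.exp_one_gt_d9]
    calc (1000 : ℝ) ≤ 2 ^ 10 := by norm_num
      _ ≤ _ := by gcongr
  have hyE : y * Real.exp (-(6 * y)) ≤ 1 / 1000 := by
    refine le_trans ?_ h1000
    have h3 : Real.exp (-(5 * y)) = Real.exp y * Real.exp (-(6 * y)) := by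
      rw [← Real.exp_add]; congr 1; ring
    rw [h3]
    have h4 : y ≤ Real.exp y := by linarith only [Real.add_one_le_exp y]
    gcongr
  have h6E : Real.exp (-(6 * y)) ≤ 1 / 1000 := by
    refine le_trans ?_ h1000
    exact Real.exp_le_exp.2 (by linarith only [hy2])
  have hyB : B * y ≤ E / 1000 := by
    rw [hB1]
    calc E * Real.exp (-(6 * y)) * y = E * (y * Real.exp (-(6 * y))) := by ring
      _ ≤ E * (1 / 1000) := by gcongr
      _ = _ := by ring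
  have hBE : B ≤ E / 1000 := by
    rw [hB1]
    calc E * Real.exp (-(6 * y)) ≤ E * (1 / 1000) := by gcongr
      _ = _ := by ring
  have hgoal : G * Real.exp (t * ℓ ^ 2) * Real.exp (ℓ * z.re - 8 * δ * ℓ) ≤ E / 1000 := by
    have e : G * Real.exp (t * ℓ ^ 2) * Real.exp (ℓ * z.re - 8 * δ * ℓ) =
        E * Real.exp (-(7 * y)) := by
      have e1 : Real.exp (t * ℓ ^ 2) * Real.exp (ℓ * z.re - 8 * δ * ℓ) =
          Real.exp (M - y) * Real.exp (-(7 * y)) := by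
        rw [← Real.exp_add, ← Real.exp_add]
        congr 1
        rw [hM, hy, hσ]; ring
      rw [mul_assoc G, e1, hE, mul_assoc G]
    rw [e]
    calc E * Real.exp (-(7 * y)) ≤ E * (1 / 1000) := by
          have : Real.exp (-(7 * y)) ≤ 1 / 1000 :=
            le_trans (Real.exp_le_exp.2 (by linarith only [hy2])) h1000
          gcongr
      _ = _ := by ring
  refine hgoal.trans ?_
  rw [← hy, ← hE] at hmain
  rw [← hB] at hshift hfull
  have hpi2 : Real.sqrt Real.pi ≤ 2 := by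
    rw [Real.sqrt_le_left (by norm_num)]
    linarith only [Real.pi_le_four]
  have hmain2 : r / 2 * E ≤ ‖∫ y in -a..a, Q f s z (w0 + y)‖ :=
    (mul_le_mul hsinv hmain hE0.le (by positivity)).trans hw2
  have hvs : B * |w0.im - b| ≤ B * (y * r) := by
    have := hv2.trans hθr
    gcongr
  have hN2 : r * (E / 2 - 2 * (B * y) - 18 * B) ≤ N := by
    have h3 : B * (3 * Real.sqrt (8 * Real.pi * t)) ≤ B * (3 * (6 * r)) := by gcongr
    have h4 : r * (E / 2 - 2 * (B * y) - 18 * B) =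
      r / 2 * E - 2 * (B * (y * r)) - B * (3 * (6 * r)) := by ring
    rw [h4]
    linarith only [h3, hfull, hshift, hmain2, hvs]
  have hN3 : r * (E / 4) ≤ N := by
    refine le_trans ?_ hN2
    apply mul_le_mul_of_nonneg_left _ hr0.le
    linarith only [hyB, hBE, hE0]
  rw [hst, one_div, ← div_eq_inv_mul, le_div_iff₀ (by positivity)]
  refine le_trans ?_ hN3
  have h5 : E / 1000 * (2 * Real.sqrt Real.pi * r) ≤ E / 1000 * (2 * 2 * r) := by gcongr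
  refine h5.trans ?_
  have h6 : 0 < E * r := by positivity
  linarith only [h6]

theorem hlow_of (hS : S_SADL) : Pool.Agent.TH839.UH.S_HLOW := by
  intro X g R1 κ hX hg hg1 hR1 hκ
  have hXp : 0 < X := by linarith only [hX]
  obtain ⟨δ, hδ⟩ : ∃ δ : ℝ, δ = min (κ / 8) (g ^ 2 / (25600 * X)) := ⟨_, rfl⟩
  have hδ0 : 0 < δ := by rw [hδ]; exact lt_min (by positivity) (by positivity)
  have hδ1 : δ ≤ κ / 8 := by rw [hδ]; exact min_le_left _ _
  have hδ2 : δ ≤ g ^ 2 / (25600 * X) := by rw [hδ]; exact min_le_right _ _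
  obtain ⟨κ2, hκ2⟩ : ∃ κ2 : ℝ, κ2 = min (g / (200000 * X)) (δ / 2) := ⟨_, rfl⟩
  have hκ20 : 0 < κ2 := by rw [hκ2]; exact lt_min (by positivity) (by positivity)
  have hκ21 : κ2 ≤ g / (200000 * X) := by rw [hκ2]; exact min_le_left _ _
  have hκ22 : κ2 ≤ δ / 2 := by rw [hκ2]; exact min_le_right _ _
  obtain ⟨C0, hC0⟩ : ∃ C0 : ℝ, C0 = 1 + 4 * (R1 + X + 1) ^ 2 := ⟨_, rfl⟩
  have hC0p : 0 < C0 := by rw [hC0]; positivity
  refine ⟨κ2 / C0, max (X * (30000 ^ 2 + 100 / g ^ 2)) (2 / δ), by positivity, ?_⟩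
  intro K ℓ G t f hK hKℓ hℓ hUD hder ht h2 z hz1 hz2 hz3
  have g1 := (le_max_left _ _).trans hℓ
  have g2 := (le_max_right _ _).trans hℓ
  rw [div_le_iff₀ hδ0] at g2
  rw [le_div_iff₀ (by positivity)] at hδ2 hκ21
  have hℓ0 : 0 < ℓ := by
    have : 0 < X * (30000 ^ 2 + 100 / g ^ 2) := by positivity
    linarith only [g1, this]
  have hKC : K * C0 ≤ κ2 * ℓ := by
    calc K * C0 ≤ κ2 / C0 * ℓ * C0 := by gcongr
      _ = κ2 * ℓ := by field_simp
  have key := core hS hX hg hg1 hR1 hδ0 (by linarith only [hδ2]) hκ20 hκ21 hκ22 hC0 hK hKC g1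
    (by linarith only [g2]) hUD hder ht h2 z hz1 hz2 hz3
  refine le_trans ?_ key
  have hG := hUD.hG
  have : ℓ * z.re - κ * ℓ ≤ ℓ * z.re - 8 * δ * ℓ := by
    have : 8 * δ * ℓ ≤ κ * ℓ := by
      apply mul_le_mul_of_nonneg_right _ hℓ0.le
      linarith only [hδ1]
    linarith only [this]
  gcongr

end Pool.Agent.TH71.UH
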