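import Pool.Agent.TH839.UH.Stm
import Pool.Agent.W736.HF.JLa

set_option autoImplicit false

/-!
# Lower bound for the Gaussian average: preliminary lemmas
-/

namespace Pool.Agent.TH71.UH

open Complex MeasureTheory Filter Topology Set
open Pool.Agent.W169.HF

/-- the Gaussian average in terms of the integrand of the saddle point lemma -/
lemma heat_eq {t s : ℝ} (ht : 0 < t) (hs : s ^ 2 = 1 / (2 * t)) (f : ℂ → ℂ) (z : ℂ) :
    heat t f z = ((1 / Real.sqrt (4 * Real.pi * t) : ℝ) : ℂ) *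
      ∫ x : ℝ, Q f s z ((x : ℂ) + z.im * I) := by
  have hst : 0 < 2 * Real.sqrt t := by positivity
  have h1 : ∫ x : ℝ, Q f s z ((x : ℂ) + z.im * I) =
      ∫ x : ℝ, ((Real.exp (-(x ^ 2 / (4 * t))) : ℝ) : ℂ) * f (z + (x : ℂ)) := by
    rw [← integral_sub_right_eq_self (μ := volume)
      (fun x : ℝ => ((Real.exp (-(x ^ 2 / (4 * t))) : ℝ) : ℂ) * f (z + (x : ℂ))) z.re]
    congr 1
    funext x
    unfold Q
    have e1 : z + ((x - z.re : ℝ) : ℂ) = (x : ℂ) + z.im * I := by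
      apply Complex.ext <;> simp
    rw [e1]
    congr 1
    rw [Complex.ofReal_exp]
    congr 1
    have h2 : ((s : ℂ)) ^ 2 = ((1 / (2 * t) : ℝ) : ℂ) := by rw [← hs]; push_cast; ring
    have e2 : (x : ℂ) + z.im * I - z = ((x - z.re : ℝ) : ℂ) := by
      rw [← e1]; ring
    rw [h2, e2]
    have : (t : ℂ) ≠ 0 := by exact_mod_cast ht.ne'
    push_cast
    field_simp
    ring
  have h3 := Measure.integral_comp_mul_left
    (fun x : ℝ => ((Real.exp (-(x ^ 2 / (4 * t))) : ℝ) : ℂ) * f (z + (x : ℂ))) (2 * Real.sqrt t)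
  rw [← h1] at h3
  have h4 : ∫ v : ℝ, ((Real.exp (-v ^ 2) : ℝ) : ℂ) * f (z + ((2 * Real.sqrt t * v : ℝ) : ℂ)) =
      ∫ x : ℝ, ((Real.exp (-((2 * Real.sqrt t * x) ^ 2 / (4 * t))) : ℝ) : ℂ) *
        f (z + ((2 * Real.sqrt t * x : ℝ) : ℂ)) := by
    congr 1
    funext v
    congr 3
    congr 1
    rw [mul_pow, mul_pow, Real.sq_sqrt ht.le]
    field_simp
    ring
  rw [heat, h4, h3, abs_of_pos (inv_pos.2 hst), Complex.real_smul, ← mul_assoc]
  congr 1
  rw [← Complex.ofReal_mul]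
  congr 1
  have e4 : Real.sqrt (4 * Real.pi * t) = 2 * Real.sqrt Real.pi * Real.sqrt t := by
    rw [show 4 * Real.pi * t = (2 ^ 2 * Real.pi) * t by ring, Real.sqrt_mul (by positivity),
      Real.sqrt_mul (by positivity), Real.sqrt_sq (by norm_num)]
  rw [e4]
  have p1 : Real.sqrt Real.pi ≠ 0 := by positivity
  have p2 : Real.sqrt t ≠ 0 := by positivity
  field_simp

/-- shifting the contour to the height `b` -/
lemma shiftb {f : ℂ → ℂ} (hf : Differentiable ℂ f) (a B b : ℝ) (w0 : ℂ)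
    (hB : ∀ x η : ℝ, (x = w0.re - a ∨ x = w0.re + a) → η ∈ uIcc b w0.im → ‖f (x + η * I)‖ ≤ B) :
    ‖∫ u in (-a)..a, f (w0 + u)‖ - 2 * (B * |w0.im - b|) ≤
      ‖∫ x in (w0.re - a)..(w0.re + a), f (x + b * I)‖ := by
  have key := Complex.integral_boundary_rect_eq_zero_of_differentiableOn f
    (((w0.re - a : ℝ) : ℂ) + (b : ℝ) * I) (((w0.re + a : ℝ) : ℂ) + w0.im * I) hf.differentiableOn
  have r1 : (((w0.re - a : ℝ) : ℂ) + (b : ℝ) * I).re = w0.re - a := by simp
  have r2 : (((w0.re - a : ℝ) : ℂ) + (b : ℝ) * I).im = b := by simp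
  have r3 : (((w0.re + a : ℝ) : ℂ) + w0.im * I).re = w0.re + a := by simp
  have r4 : (((w0.re + a : ℝ) : ℂ) + w0.im * I).im = w0.im := by simp
  rw [r1, r2, r3, r4] at key
  have e1 : ∫ x in (w0.re - a)..(w0.re + a), f (x + w0.im * I) = ∫ u in (-a)..a, f (w0 + u) := by
    have := intervalIntegral.integral_comp_add_left (a := -a) (b := a)
      (fun x : ℝ => f (x + w0.im * I)) w0.re
    rw [← sub_eq_add_neg] at this
    rw [← this]
    apply intervalIntegral.integral_congr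
    intro u _
    simp only
    congr 1
    conv_rhs => rw [← Complex.re_add_im w0]
    push_cast
    ring
  rw [e1] at key
  have hv : ∀ x : ℝ, (x = w0.re - a ∨ x = w0.re + a) →
      ‖∫ y in b..w0.im, f (x + y * I)‖ ≤ B * |w0.im - b| := by
    intro x hx
    exact intervalIntegral.norm_integral_le_of_norm_le_const (a := b) (b := w0.im) (C := B)
      (f := fun y : ℝ => f (x + y * I)) (fun y hy => hB x y hx (uIoc_subset_uIcc hy))
  have h3 := hv (w0.re + a) (Or.inr rfl)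
  have h4 := hv (w0.re - a) (Or.inl rfl)
  have e3 : ∫ u in (-a)..a, f (w0 + u) = (∫ x in (w0.re - a)..(w0.re + a), f (x + b * I)) +
      I • (∫ y in b..w0.im, f (((w0.re + a : ℝ) : ℂ) + y * I)) -
      I • ∫ y in b..w0.im, f (((w0.re - a : ℝ) : ℂ) + y * I) := by
    linear_combination -key
  rw [e3]
  have h5 : ‖I • (∫ y in b..w0.im, f (((w0.re + a : ℝ) : ℂ) + y * I))‖ ≤ B * |w0.im - b| := by
    rw [norm_smul, Complex.norm_I, one_mul]; exact h3
  have h6 : ‖I • (∫ y in b..w0.im, f (((w0.re - a : ℝ) : ℂ) + y * I))‖ ≤ B * |w0.im - b| := by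
    rw [norm_smul, Complex.norm_I, one_mul]; exact h4
  have h7 := norm_sub_le ((∫ x in (w0.re - a)..(w0.re + a), f (x + b * I)) +
      I • (∫ y in b..w0.im, f (((w0.re + a : ℝ) : ℂ) + y * I)))
      (I • ∫ y in b..w0.im, f (((w0.re - a : ℝ) : ℂ) + y * I))
  have h8 := norm_add_le (∫ x in (w0.re - a)..(w0.re + a), f (x + b * I))
      (I • (∫ y in b..w0.im, f (((w0.re + a : ℝ) : ℂ) + y * I)))
  linarith

/-- the whole line against a segment -/
lemma full {f : ℝ → ℂ} {h : ℝ → ℝ} {v a : ℝ} (ha : 0 ≤ a) (hf : Integrable f) (hh : Integrable h)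
    (h0 : ∀ r, 0 ≤ h r) (hb : ∀ r : ℝ, a ≤ |r - v| → ‖f r‖ ≤ h r) :
    ‖∫ r in (v - a)..(v + a), f r‖ - (∫ r, h r) ≤ ‖∫ r, f r‖ := by
  have h1 := integral_add_compl (μ := volume) (f := f) (s := Ioc (v - a) (v + a)) measurableSet_Ioc hf
  have h2 : ∫ r in Ioc (v - a) (v + a), f r = ∫ r in (v - a)..(v + a), f r :=
    (intervalIntegral.integral_of_le (by linarith)).symm
  rw [h2] at h1
  have h3 : ‖∫ r in (Ioc (v - a) (v + a))ᶜ, f r‖ ≤ ∫ r, h r := by
    refine (norm_integral_le_of_norm_le hh.integrableOn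
      ((ae_restrict_mem measurableSet_Ioc.compl).mono fun r hr => ?_)).trans
      (setIntegral_le_integral hh (Eventually.of_forall h0))
    refine hb r ?_
    by_contra hcon
    push Not at hcon
    rw [abs_lt] at hcon
    exact hr ⟨by linarith [hcon.1], by linarith [hcon.2]⟩
  have h4 : ∫ r in (v - a)..(v + a), f r = (∫ r, f r) - ∫ r in (Ioc (v - a) (v + a))ᶜ, f r := by
    rw [← h1]; ring
  rw [h4]
  have := norm_sub_le (∫ r, f r) (∫ r in (Ioc (v - a) (v + a))ᶜ, f r)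
  linarith

/-- three Gaussians -/
noncomputable def GS (t σ L x : ℝ) : ℝ :=
  Real.exp (-((x - (σ + L)) ^ 2 / (8 * t))) + Real.exp (-((x - σ) ^ 2 / (8 * t))) +
    Real.exp (-((x - (σ - L)) ^ 2 / (8 * t)))

lemma GS_nonneg (t σ L x : ℝ) : 0 ≤ GS t σ L x := by
  unfold GS; positivity

lemma gauss_int {t : ℝ} (ht : 0 < t) (m : ℝ) :
    Integrable (fun x : ℝ => Real.exp (-((x - m) ^ 2 / (8 * t)))) ∧
    ∫ x : ℝ, Real.exp (-((x - m) ^ 2 / (8 * t))) = Real.sqrt (8 * Real.pi * t) := by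
  have h1 : ∀ x : ℝ, Real.exp (-(x ^ 2 / (8 * t))) = Real.exp (-(1 / (8 * t)) * x ^ 2) := by
    intro x; congr 1; field_simp
  have h2 := integrable_exp_neg_mul_sq (b := 1 / (8 * t)) (by positivity)
  have h3 := integral_gaussian (1 / (8 * t))
  have h4 : Integrable (fun x : ℝ => Real.exp (-(x ^ 2 / (8 * t)))) := by
    simp only [h1]; exact h2
  refine ⟨h4.comp_sub_right m, ?_⟩
  rw [integral_sub_right_eq_self (μ := volume) (fun x : ℝ => Real.exp (-(x ^ 2 / (8 * t)))) m]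
  simp only [h1]
  rw [h3]
  congr 1
  field_simp

lemma GS_int {t : ℝ} (ht : 0 < t) (σ L : ℝ) : Integrable (GS t σ L) ∧
    ∫ x, GS t σ L x = 3 * Real.sqrt (8 * Real.pi * t) := by
  obtain ⟨i1, j1⟩ := gauss_int ht (σ + L)
  obtain ⟨i2, j2⟩ := gauss_int ht σ
  obtain ⟨i3, j3⟩ := gauss_int ht (σ - L)
  refine ⟨(i1.add i2).add i3, ?_⟩
  have e := integral_add (i1.add i2) i3
  have e2 := integral_add i1 i2
  simp only [Pi.add_apply] at e
  unfold GS
  rw [e, e2, j1, j2, j3]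
  ring

end Pool.Agent.TH71.UH
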