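import Pool.Agent.TH71.UH.HLow
import Pool.Agent.W186.HZ.Sad

set_option autoImplicit false

/-!
# Lower bound for the Gaussian average: the statement `S_HLOW`
-/

namespace Pool.Agent.TH71.UH

open Pool.Agent.W169.HF

theorem sadl : S_SADL := fun _ _ _ _ _ _ hρ0 hρ hs hsρ hθ0 hθ h =>
  Pool.Agent.W186.HZ.sad hρ0 hρ hs hsρ hθ0 hθ h

theorem hlow : Pool.Agent.TH839.UH.S_HLOW := hlow_of sadl

end Pool.Agent.TH71.UH
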